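import Pool.Agent.TH169.GO.Lower

/-!
# The count of parameters
-/

set_option autoImplicit false

open Matrix Module

namespace Pool.Agent.TH169.GO

theorem exists_basis (F : (Fin 4 → ℕ) → ℂ) [FiniteDimensional ℂ (WW F)] {d : ℕ}
    (hd : finrank ℂ (WW F) = d) :
    ∃ (B : Basis (Fin d) ℂ (WW F)) (m : Fin d → (Fin 4 → ℕ)), ∀ j, B j = pw F (m j) := by
  classical
  obtain ⟨b, hb, hspan, hli⟩ := exists_linearIndependent ℂ (Set.range (pw F))
  have hfin : Finite b := hli.finite
  have : Fintype b := Fintype.ofFinite b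
  let B : Basis b ℂ (WW F) := Basis.mk hli (by
    rw [Subtype.range_coe, hspan, span_pw])
  have hcard : Fintype.card b = d := by
    rw [← hd, finrank_eq_card_basis B]
  let ε := Fintype.equivFinOfCardEq hcard
  choose m hm using fun x : b => hb x.2
  refine ⟨B.reindex ε, fun j => m (ε.symm j), fun j => ?_⟩
  rw [Basis.reindex_apply, Basis.mk_apply]
  exact (hm _).symm

theorem det_ne {d : ℕ} (P : Matrix (Fin d) (Fin d) ℂ)
    (h : AlgebraicIndependent ℚ (fun x : Fin d × Fin d => P x.1 x.2)) : P.det ≠ 0 := by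
  intro h0
  have h1 := Matrix.det_mvPolynomialX_ne_zero (Fin d) ℚ
  apply h1
  apply (injective_iff_map_eq_zero _).1 h
  have h2 : MvPolynomial.aeval (fun x : Fin d × Fin d => P x.1 x.2)
      (Matrix.mvPolynomialX (Fin d) (Fin d) ℚ).det = P.det := by
    rw [AlgHom.map_det]
    congr 1
    ext a b
    simp [Matrix.mvPolynomialX]
  rw [h2, h0]

theorem exists_equiv (F : (Fin 4 → ℕ) → ℂ) [FiniteDimensional ℂ (WW F)] {d : ℕ}
    (hd : finrank ℂ (WW F) = d) (P : Matrix (Fin d) (Fin d) ℂ) (hP : P.det ≠ 0) :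
    ∃ (e : WW F ≃ₗ[ℂ] (Fin d → ℂ)) (m : Fin d → (Fin 4 → ℕ)), ∀ a j,
      P a j = (mon (pt e) (m j) *ᵥ vec (pt e)) a := by
  obtain ⟨B, m, hm⟩ := exists_basis F hd
  have hu : IsUnit P.det := isUnit_iff_ne_zero.2 hP
  let e2 : (Fin d → ℂ) ≃ₗ[ℂ] (Fin d → ℂ) :=
    LinearEquiv.ofLinearMap (Matrix.toLin' P) (Matrix.toLin' P⁻¹)
      (by rw [← Matrix.toLin'_mul, Matrix.mul_nonsing_inv _ hu, Matrix.toLin'_one])
      (by rw [← Matrix.toLin'_mul, Matrix.nonsing_inv_mul _ hu, Matrix.toLin'_one])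
  let e : WW F ≃ₗ[ℂ] (Fin d → ℂ) := B.equivFun.trans e2
  refine ⟨e, m, fun a j => ?_⟩
  have hv : vec (pt e) = e (pw F 0) := rfl
  rw [hv, mon_mulVec, TW_pw, add_zero, ← hm]
  have h1 : e (B j) = P *ᵥ (Pi.single j 1) := by
    change Matrix.toLin' P (B.equivFun (B j)) = _
    rw [Matrix.toLin'_apply]
    congr 1
    funext i
    rw [Basis.equivFun_self]
    simp [Pi.single_apply, eq_comm]
  rw [h1, Matrix.mulVec_single_one]
  rfl

theorem count (F : (Fin 4 → ℕ) → ℂ) [FiniteDimensional ℂ (WW F)] {d : ℕ}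
    (hd : finrank ℂ (WW F) = d) {Θ T : Type} [Fintype Θ] [Fintype T] (θ : Θ → ℂ)
    (P : Matrix (Fin d) (Fin d) ℂ)
    (hind : AlgebraicIndependent ℚ (Sum.elim θ (fun x : Fin d × Fin d => P x.1 x.2)))
    (τ : T → ℂ)
    (hθ : ∀ E : Subfield ℂ, (∀ β, F β ∈ E) → (∀ t, τ t ∈ E) → ∀ i, θ i ∈ E)
    (hC : ZariskiIrreducible (GorHilb d)) : Fintype.card Θ ≤ 5 * d + Fintype.card T := by
  classical
  have hP : P.det ≠ 0 := det_ne P (by
    have := hind.comp (Sum.inr : Fin d × Fin d → Θ ⊕ (Fin d × Fin d)) Sum.inr_injective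
    exact this)
  obtain ⟨e, m, hm⟩ := exists_equiv F hd P hP
  set c := pt e with hc
  -- a transcendence basis of the coordinates
  obtain ⟨I, hI⟩ := (AlgebraicIndependent.matroid ℚ ℂ).exists_isBasis (Set.range c)
    (by rw [AlgebraicIndependent.matroid_e]; exact Set.subset_univ _)
  have hIsub : I ⊆ Set.range c := hI.subset
  have hIfin : I.Finite := (Set.finite_range c).subset hIsub
  have : Fintype I := hIfin.fintype
  have hIind : AlgebraicIndependent ℚ ((↑) : I → ℂ) := by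
    have := hI.indep
    rw [AlgebraicIndependent.matroid_indep_iff] at this
    exact this
  have hcl : ∀ j, c j ∈ Lf I := by
    intro j
    have h1 : c j ∈ (AlgebraicIndependent.matroid ℚ ℂ).closure I := by
      rw [hI.closure_eq_closure]
      exact (AlgebraicIndependent.matroid ℚ ℂ).mem_closure_of_mem ⟨j, rfl⟩
        (by rw [AlgebraicIndependent.matroid_e]; exact Set.subset_univ _)
    rw [AlgebraicIndependent.matroid_closure_eq] at h1
    exact h1
  choose ee hee using fun x : I => hIsub x.2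
  have hupper : Fintype.card I ≤ d * d + 4 * d := by
    by_contra hlt
    push Not at hlt
    refine upper hC (exists_good d) ee hlt (pt_mem e) ?_
    have : (fun j => pt e (ee j)) = ((↑) : I → ℂ) := funext hee
    rw [this]
    exact hIind
  let y : I ⊕ (Fin d ⊕ T) → ℂ := Sum.elim (↑) (Sum.elim (ph e) τ)
  let E : Subfield ℂ := Lf (Set.range y)
  have hcE : ∀ j, c j ∈ E := fun j => isAlg_mono (by
    intro x hx
    exact ⟨Sum.inl ⟨x, hx⟩, rfl⟩) (hcl j)
  have hphE : ∀ j, ph e j ∈ E := fun j => Lf_of_mem ⟨Sum.inr (Sum.inl j), rfl⟩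
  have hτE : ∀ t, τ t ∈ E := fun t => Lf_of_mem ⟨Sum.inr (Sum.inr t), rfl⟩
  have hFE : ∀ β, F β ∈ E := by
    intro β
    rw [← ph_mon e β, dotProduct]
    exact sum_mem fun j _ => mul_mem (hphE j) (mon_mem E c hcE β j)
  have hfinal := card_le_of_alg (Sum.elim θ (fun x : Fin d × Fin d => P x.1 x.2)) hind y (by
    rintro (i | ⟨a, j⟩)
    · exact hθ E hFE hτE i
    · have : P a j ∈ E := by
        rw [hm a j]
        exact mon_mem E c hcE _ a
      exact this)
  simp only [Fintype.card_sum, Fintype.card_prod, Fintype.card_fin] at hfinal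
  omega

end Pool.Agent.TH169.GO
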