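import Mathlib

/-!
# Punctual and non-punctual Gorenstein subschemes of affine 4-space: matrices

A finite subscheme of length `d` of affine `4`-space with a basis of its coordinate ring is the same
as four commuting `d × d` matrices (multiplication by the coordinates) together with a cyclic vector
(the unit element). The scheme is Gorenstein if and only if the dual of the coordinate ring is a
cyclic module, that is, if there is a cyclic covector.
-/

set_option autoImplicit false

namespace Pool.Agent.TH169.GO

/-- The coordinates of four `d × d` matrices and a vector with `d` entries. -/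
abbrev Idx (d : ℕ) : Type := (Fin 4 × Fin d × Fin d) ⊕ Fin d

/-- The `i`-th matrix of a point `p`. -/
def mat {R : Type*} {d : ℕ} (p : Idx d → R) (i : Fin 4) : Matrix (Fin d) (Fin d) R :=
  Matrix.of fun a b => p (Sum.inl (i, a, b))

/-- The vector of a point `p`. -/
def vec {R : Type*} {d : ℕ} (p : Idx d → R) : Fin d → R := fun a => p (Sum.inr a)

/-- The matrix `X₀ ^ β₀ * X₁ ^ β₁ * X₂ ^ β₂ * X₃ ^ β₃`. -/
def mon {R : Type*} [CommRing R] {d : ℕ} (p : Idx d → R) (β : Fin 4 → ℕ) :
    Matrix (Fin d) (Fin d) R :=
  mat p 0 ^ β 0 * mat p 1 ^ β 1 * mat p 2 ^ β 2 * mat p 3 ^ β 3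

/-- Four commuting complex `d × d` matrices with a cyclic vector, such that there is a cyclic
covector: the Gorenstein locus of the Hilbert scheme of `d` points of affine `4`-space with a frame
(a basis of the coordinate ring of the subscheme). -/
def GorHilb (d : ℕ) : Set (Idx d → ℂ) :=
  {p | (∀ i j : Fin 4, mat p i * mat p j = mat p j * mat p i) ∧
    Submodule.span ℂ (Set.range fun β : Fin 4 → ℕ => Matrix.mulVec (mon p β) (vec p)) = ⊤ ∧
    ∃ φ : Fin d → ℂ,
      Submodule.span ℂ (Set.range fun β : Fin 4 → ℕ => Matrix.vecMul φ (mon p β)) = ⊤}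

/-- `C` is irreducible in the Zariski topology: it is not empty, and if the product of two
polynomials vanishes on `C` then one of them vanishes on `C`. -/
def ZariskiIrreducible {ι : Type*} (C : Set (ι → ℂ)) : Prop :=
  C.Nonempty ∧ ∀ F G : MvPolynomial ι ℂ,
    (∀ p ∈ C, MvPolynomial.eval p F * MvPolynomial.eval p G = 0) →
      (∀ p ∈ C, MvPolynomial.eval p F = 0) ∨ ∀ p ∈ C, MvPolynomial.eval p G = 0

end Pool.Agent.TH169.GO
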