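import Pool.Agent.TH169.GO.Lower

/-!
# Bounds for the length of the algebra
-/

set_option autoImplicit false

open Module

namespace Pool.Agent.TH169.GO

/-- the exponents of degree `n` -/
abbrev Mon (n : ℕ) : Finset (Fin 4 → ℕ) := Finset.Nat.antidiagonalTuple 4 n

lemma mem_Mon {n : ℕ} {β : Fin 4 → ℕ} : β ∈ Mon n ↔ ∑ i, β i = n :=
  Finset.Nat.mem_antidiagonalTuple

/-- the exponents of degree at most `n - 1` -/
abbrev Lt (n : ℕ) : Type := Σ k : Fin n, (Mon k : Finset (Fin 4 → ℕ))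

theorem c4 : (Mon 4).card = 35 := by decide +kernel
theorem c5 : (Mon 5).card = 56 := by decide +kernel
theorem c9 : (Mon 9).card = 220 := by decide +kernel
theorem c8 : (Mon 8).card = 165 := by decide +kernel
theorem f9 : ((Mon 9).filter fun β => β 0 ≤ 3).card = 164 := by decide +kernel
theorem cc : ∑ k : Fin 8, (Mon k).card = 330 := by decide +kernel
theorem cc4 : ∑ k : Fin 5, (Mon k).card = 70 := by decide +kernel
theorem cc3 : ∑ k : Fin 4, (Mon k).card = 35 := by decide +kernel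

lemma card_Lt (n : ℕ) : Fintype.card (Lt n) = ∑ k : Fin n, (Mon k).card := by
  simp [Fintype.card_sigma]

/-- the exponent of `x₀⁴` -/
def e4 : Fin 4 → ℕ := Pi.single 0 4

lemma e4_mem : e4 ∈ Mon 4 := by
  rw [mem_Mon]; decide

lemma sum_add (α γ : Fin 4 → ℕ) : ∑ i, (α + γ) i = ∑ i, α i + ∑ i, γ i := by
  simp [Finset.sum_add_distrib]

/-- the conditions on the sequence `F` and the quartic form `q` -/
structure Good (q F : (Fin 4 → ℕ) → ℂ) : Prop where
  one : q e4 = 1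
  big : ∀ β, 10 ≤ ∑ i, β i → F β = 0
  nine : ∀ γ ∈ Mon 5, ∑ α ∈ Mon 4, q α * F (α + γ) = 0
  eight : ∑ α ∈ Mon 4, q α * ∑ α' ∈ Mon 4, q α' * F (α + α') = 0

/-- sequences that vanish in degrees at least five -/
def Wb : Submodule ℂ ((Fin 4 → ℕ) → ℂ) where
  carrier := {ψ | ∀ γ, 5 ≤ ∑ i, γ i → ψ γ = 0}
  zero_mem' := fun _ _ => rfl
  add_mem' := fun {a b} ha hb γ hγ => by
    rw [Pi.add_apply, ha γ hγ, hb γ hγ, add_zero]
  smul_mem' := fun c a ha γ hγ => by
    rw [Pi.smul_apply, ha γ hγ, smul_zero]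

/-- the subspace killed by `q` -/
def Wq (q : (Fin 4 → ℕ) → ℂ) : Submodule ℂ ((Fin 4 → ℕ) → ℂ) where
  carrier := {ψ | ψ ∈ Wb ∧ ∑ α ∈ Mon 4, q α * ψ α = 0}
  zero_mem' := ⟨Submodule.zero_mem _, by simp⟩
  add_mem' := fun {a b} ha hb => ⟨Submodule.add_mem _ ha.1 hb.1, by
    simp only [Pi.add_apply, mul_add, Finset.sum_add_distrib, ha.2, hb.2, add_zero]⟩
  smul_mem' := fun c a ha => ⟨Submodule.smul_mem _ _ ha.1, by
    simp only [Pi.smul_apply, smul_eq_mul, mul_left_comm _ c, ← Finset.mul_sum, ha.2, mul_zero]⟩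

/-- restriction to the exponents of degree at most four -/
def rs : ((Fin 4 → ℕ) → ℂ) →ₗ[ℂ] (Lt 5 → ℂ) := LinearMap.funLeft ℂ ℂ fun x => x.2.1

lemma rs_inj {ψ : (Fin 4 → ℕ) → ℂ} (h : ψ ∈ Wb) (h0 : rs ψ = 0) : ψ = 0 := by
  funext γ
  by_cases hγ : 5 ≤ ∑ i, γ i
  · exact h γ hγ
  · push Not at hγ
    have := congrFun h0 ⟨⟨∑ i, γ i, hγ⟩, ⟨γ, mem_Mon.2 rfl⟩⟩
    exact this

lemma fin_Wb : FiniteDimensional ℂ Wb :=
  FiniteDimensional.of_injective (rs.domRestrict Wb) (by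
    rw [← LinearMap.ker_eq_bot, LinearMap.ker_eq_bot']
    intro x hx
    exact Subtype.ext (rs_inj x.2 hx))

lemma finrank_Wb : finrank ℂ Wb ≤ 70 := by
  have h := LinearMap.finrank_le_finrank_of_injective (f := rs.domRestrict Wb) (by
    rw [← LinearMap.ker_eq_bot, LinearMap.ker_eq_bot']
    intro x hx
    exact Subtype.ext (rs_inj x.2 hx))
  rw [finrank_fintype_fun_eq_card, card_Lt, cc4] at h
  exact h

/-- exponents of degree at most four except that of `x₀⁴` -/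
abbrev L69 : Type := {x : Lt 5 // x ≠ ⟨4, ⟨e4, e4_mem⟩⟩}

lemma card_L69 : Fintype.card L69 = 69 := by
  rw [Fintype.card_subtype_compl, Fintype.card_subtype_eq, card_Lt, cc4]

/-- restriction to these exponents -/
def rs' : ((Fin 4 → ℕ) → ℂ) →ₗ[ℂ] (L69 → ℂ) := LinearMap.funLeft ℂ ℂ fun x => x.1.2.1

lemma rs'_inj {q ψ : (Fin 4 → ℕ) → ℂ} (hq : q e4 = 1) (h : ψ ∈ Wq q) (h0 : rs' ψ = 0) :
    ψ = 0 := by
  classical
  have h1 : ∀ γ, γ ≠ e4 → ψ γ = 0 := by
    intro γ hne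
    by_cases hγ : 5 ≤ ∑ i, γ i
    · exact h.1 γ hγ
    · push Not at hγ
      have := congrFun h0 ⟨⟨⟨∑ i, γ i, hγ⟩, ⟨γ, mem_Mon.2 rfl⟩⟩, by
        intro heq
        apply hne
        have h3 : (⟨⟨∑ i, γ i, hγ⟩, ⟨γ, mem_Mon.2 rfl⟩⟩ : Lt 5).2.1 =
          (⟨4, ⟨e4, e4_mem⟩⟩ : Lt 5).2.1 := by rw [heq]
        exact h3⟩
      exact this
  funext γ
  by_cases hne : γ = e4
  · subst hne
    have h2 := h.2
    rw [Finset.sum_eq_single e4 (fun α _ hα => by rw [h1 α hα, mul_zero])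
      (fun hα => absurd e4_mem hα), hq, one_mul] at h2
    exact h2
  · exact h1 γ hne

lemma finrank_Wq {q : (Fin 4 → ℕ) → ℂ} (hq : q e4 = 1) : finrank ℂ (Wq q) ≤ 69 := by
  have h := LinearMap.finrank_le_finrank_of_injective (f := rs'.domRestrict (Wq q)) (by
    rw [← LinearMap.ker_eq_bot, LinearMap.ker_eq_bot']
    intro x hx
    exact Subtype.ext (rs'_inj hq x.2 hx))
  rw [finrank_fintype_fun_eq_card, card_L69] at h
  exact h

lemma fin_Wq {q : (Fin 4 → ℕ) → ℂ} (hq : q e4 = 1) : FiniteDimensional ℂ (Wq q) :=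
  FiniteDimensional.of_injective (rs'.domRestrict (Wq q)) (by
    rw [← LinearMap.ker_eq_bot, LinearMap.ker_eq_bot']
    intro x hx
    exact Subtype.ext (rs'_inj hq x.2 hx))

variable {q F : (Fin 4 → ℕ) → ℂ}

lemma psi_big (h : Good q F) {β : Fin 4 → ℕ} (hβ : 5 ≤ ∑ i, β i) : psi F β ∈ Wq q := by
  refine ⟨fun γ hγ => h.big _ (by rw [sum_add]; omega), ?_⟩
  rcases hβ.eq_or_lt with h5 | h5
  · exact h.nine β (mem_Mon.2 h5.symm)
  · refine Finset.sum_eq_zero fun α hα => ?_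
    rw [psi, h.big _ (by rw [sum_add, mem_Mon.1 hα]; omega), mul_zero]

lemma psi_q (h : Good q F) : (∑ α ∈ Mon 4, q α • psi F α) ∈ Wq q := by
  refine ⟨fun γ hγ => ?_, ?_⟩
  · simp only [Finset.sum_apply, Pi.smul_apply, smul_eq_mul, psi]
    rcases hγ.eq_or_lt with h5 | h5
    · rw [← h.nine γ (mem_Mon.2 h5.symm)]
      exact Finset.sum_congr rfl fun α _ => by rw [add_comm]
    · refine Finset.sum_eq_zero fun α hα => ?_
      rw [h.big _ (by rw [sum_add, mem_Mon.1 hα]; omega), mul_zero]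
  · rw [← h.eight]
    refine Finset.sum_congr rfl fun α _ => ?_
    simp only [Finset.sum_apply, Pi.smul_apply, smul_eq_mul, psi]

/-- the first bound -/
theorem bound1 (h : Good q F) : FiniteDimensional ℂ (WW F) ∧ finrank ℂ (WW F) ≤ 138 := by
  classical
  let S : Submodule ℂ ((Fin 4 → ℕ) → ℂ) :=
    Submodule.span ℂ (Set.range fun x : L69 => psi F x.1.2.1)
  have hS : ∀ β, β ≠ e4 → ∑ i, β i < 5 → psi F β ∈ S := by
    intro β hne hβ
    refine Submodule.subset_span ⟨⟨⟨⟨∑ i, β i, hβ⟩, ⟨β, mem_Mon.2 rfl⟩⟩, ?_⟩, rfl⟩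
    intro heq
    apply hne
    have h3 : (⟨⟨∑ i, β i, hβ⟩, ⟨β, mem_Mon.2 rfl⟩⟩ : Lt 5).2.1 =
      (⟨4, ⟨e4, e4_mem⟩⟩ : Lt 5).2.1 := by rw [heq]
    exact h3
  have hle : WW F ≤ S ⊔ Wq q := by
    refine Submodule.span_le.2 ?_
    rintro _ ⟨β, rfl⟩
    by_cases hβ : 5 ≤ ∑ i, β i
    · exact Submodule.mem_sup_right (psi_big h hβ)
    · push Not at hβ
      by_cases hne : β = e4
      · subst hne
        have h1 := psi_q h
        rw [← Finset.add_sum_erase _ _ e4_mem, h.one, one_smul] at h1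
        have h2 : psi F e4 = -(∑ x ∈ (Mon 4).erase e4, q x • psi F x) +
            (psi F e4 + ∑ x ∈ (Mon 4).erase e4, q x • psi F x) := by abel
        rw [h2]
        refine Submodule.add_mem _ (Submodule.mem_sup_left ?_) (Submodule.mem_sup_right h1)
        refine Submodule.neg_mem _ (Submodule.sum_mem _ fun α hα => Submodule.smul_mem _ _ ?_)
        rw [Finset.mem_erase] at hα
        exact hS α hα.1 (by rw [mem_Mon.1 hα.2]; norm_num)
      · exact Submodule.mem_sup_left (hS β hne hβ)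
  have hfS : FiniteDimensional ℂ S := FiniteDimensional.span_of_finite ℂ (Set.finite_range _)
  have hfW := fin_Wq h.one
  have hcS : finrank ℂ S ≤ 69 := by
    have := finrank_range_le_card (R := ℂ) (fun x : L69 => psi F x.1.2.1)
    rw [card_L69] at this
    exact this
  have hf : FiniteDimensional ℂ (S ⊔ Wq q : Submodule ℂ _) := Submodule.finiteDimensional_sup _ _
  refine ⟨Submodule.finiteDimensional_of_le hle, ?_⟩
  calc finrank ℂ (WW F) ≤ finrank ℂ (S ⊔ Wq q : Submodule ℂ _) := Submodule.finrank_mono hle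
    _ ≤ finrank ℂ S + finrank ℂ (Wq q) := Submodule.finrank_add_le_finrank_add_finrank _ _
    _ ≤ 69 + 69 := add_le_add hcS (finrank_Wq h.one)
    _ = 138 := by norm_num

/-- the quartic forms that kill the top part of `F` -/
def KK (F : (Fin 4 → ℕ) → ℂ) : Submodule ℂ ((Mon 4 : Finset (Fin 4 → ℕ)) → ℂ) where
  carrier := {x | ∀ γ ∈ Mon 5, ∑ α, x α * F (α.1 + γ) = 0}
  zero_mem' := fun _ _ => by simp
  add_mem' := fun {a b} ha hb γ hγ => by
    simp only [Pi.add_apply, add_mul, Finset.sum_add_distrib, ha γ hγ, hb γ hγ, add_zero]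
  smul_mem' := fun c a ha γ hγ => by
    simp only [Pi.smul_apply, smul_eq_mul, mul_assoc, ← Finset.mul_sum, ha γ hγ, mul_zero]

/-- the second bound -/
theorem bound2 (h : Good q F) : finrank ℂ (WW F) + finrank ℂ (KK F) ≤ 140 := by
  classical
  let S : Submodule ℂ ((Fin 4 → ℕ) → ℂ) :=
    Submodule.span ℂ (Set.range fun x : Lt 4 => psi F x.2.1)
  let Λ : ((Mon 4 : Finset (Fin 4 → ℕ)) → ℂ) →ₗ[ℂ] ((Fin 4 → ℕ) → ℂ) :=
    Fintype.linearCombination ℂ (fun α : (Mon 4 : Finset (Fin 4 → ℕ)) => psi F α.1)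
  obtain ⟨K', hK'⟩ := Submodule.exists_isCompl (KK F)
  have hK1 : Submodule.map Λ (KK F) ≤ Wb := by
    rintro _ ⟨x, hx, rfl⟩ γ hγ
    simp only [Λ, Fintype.linearCombination_apply, Finset.sum_apply, Pi.smul_apply, smul_eq_mul,
      psi]
    rcases hγ.eq_or_lt with h5 | h5
    · rw [← hx γ (mem_Mon.2 h5.symm)]
      exact Finset.sum_congr rfl fun α _ => by rw [add_comm]
    · refine Finset.sum_eq_zero fun α _ => ?_
      rw [h.big _ (by rw [sum_add, mem_Mon.1 α.2]; omega), mul_zero]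
  have hfin := fin_Wb
  have hle : WW F ≤ S ⊔ (Submodule.map Λ K' ⊔ Wb) := by
    refine Submodule.span_le.2 ?_
    rintro _ ⟨β, rfl⟩
    rcases lt_trichotomy (∑ i, β i) 4 with hβ | hβ | hβ
    · exact Submodule.mem_sup_left (Submodule.subset_span
        ⟨⟨⟨∑ i, β i, hβ⟩, ⟨β, mem_Mon.2 rfl⟩⟩, rfl⟩)
    · refine Submodule.mem_sup_right ?_
      have h1 : psi F β = Λ (Pi.single ⟨β, mem_Mon.2 hβ⟩ 1) := by
        simp [Λ, Fintype.linearCombination_apply_single]
      rw [h1]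
      have h2 : (Pi.single ⟨β, mem_Mon.2 hβ⟩ 1 : (Mon 4 : Finset (Fin 4 → ℕ)) → ℂ) ∈
          KK F ⊔ K' := by rw [hK'.sup_eq_top]; trivial
      obtain ⟨a, ha, b, hb, hab⟩ := Submodule.mem_sup.1 h2
      rw [← hab, map_add]
      exact Submodule.add_mem _ (Submodule.mem_sup_right (hK1 ⟨a, ha, rfl⟩))
        (Submodule.mem_sup_left ⟨b, hb, rfl⟩)
    · exact Submodule.mem_sup_right (Submodule.mem_sup_right (psi_big h hβ).1)
  have hfS : FiniteDimensional ℂ S := FiniteDimensional.span_of_finite ℂ (Set.finite_range _)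
  have hcS : finrank ℂ S ≤ 35 := by
    have := finrank_range_le_card (R := ℂ) (fun x : Lt 4 => psi F x.2.1)
    rw [card_Lt, cc3] at this
    exact this
  have h3 : finrank ℂ (KK F) + finrank ℂ K' = 35 := by
    rw [Submodule.finrank_add_eq_of_isCompl hK', finrank_fintype_fun_eq_card, Fintype.card_coe, c4]
  have h4 : finrank ℂ (Submodule.map Λ K') ≤ finrank ℂ K' := Submodule.finrank_map_le _ _
  have hf1 : FiniteDimensional ℂ (Submodule.map Λ K' ⊔ Wb : Submodule ℂ _) :=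
    Submodule.finiteDimensional_sup _ _
  have hf : FiniteDimensional ℂ (S ⊔ (Submodule.map Λ K' ⊔ Wb) : Submodule ℂ _) :=
    Submodule.finiteDimensional_sup _ _
  have h5 : finrank ℂ (WW F) ≤ finrank ℂ (S ⊔ (Submodule.map Λ K' ⊔ Wb) : Submodule ℂ _) :=
    Submodule.finrank_mono hle
  have h6 := Submodule.finrank_add_le_finrank_add_finrank S (Submodule.map Λ K' ⊔ Wb)
  have h7 := Submodule.finrank_add_le_finrank_add_finrank (Submodule.map Λ K') Wb
  have h8 := finrank_Wb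
  omega

end Pool.Agent.TH169.GO
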