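import Pool.Agent.TH169.GO.Dim

/-!
# Existence of the sequences
-/

set_option autoImplicit false

open Module

namespace Pool.Agent.TH169.GO

/-- free exponents in degree nine -/
abbrev B9 : Finset (Fin 4 → ℕ) := (Mon 9).filter fun β => β 0 ≤ 3

/-- the exponent of `x₀⁸` -/
def e8 : Fin 4 → ℕ := Pi.single 0 8

lemma e8_mem : e8 ∈ Mon 8 := by
  rw [mem_Mon]; decide

/-- parameters of the quartic form -/
abbrev A4 : Finset (Fin 4 → ℕ) := (Mon 4).erase e4

/-- free exponents in degree eight -/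
abbrev B8 : Finset (Fin 4 → ℕ) := (Mon 8).erase e8

/-- the 692 parameters -/
abbrev Th : Type := A4 ⊕ (B9 ⊕ (B8 ⊕ Lt 8))

lemma card_Th : Fintype.card Th = 692 := by
  simp only [Fintype.card_sum, Fintype.card_coe, card_Lt, cc, f9]
  rw [Finset.card_erase_of_mem e4_mem, Finset.card_erase_of_mem e8_mem, c4, c8]

/-- the degree nine part -/
theorem exists9 (q : (Fin 4 → ℕ) → ℂ) (hq : q e4 = 1) (g : B9 → ℂ) :
    ∃ h : (Fin 4 → ℕ) → ℂ, (∀ β : B9, h β.1 = g β) ∧ (∀ β, β ∉ Mon 9 → h β = 0) ∧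
      ∀ γ ∈ Mon 5, ∑ α ∈ Mon 4, q α * h (α + γ) = 0 := by
  classical
  have h59 : ∀ α : (Mon 4 : Finset (Fin 4 → ℕ)), ∀ γ : (Mon 5 : Finset (Fin 4 → ℕ)),
      α.1 + γ.1 ∈ Mon 9 := fun α γ => by
    rw [mem_Mon, sum_add, mem_Mon.1 α.2, mem_Mon.1 γ.2]
  let L1 : ((Mon 9 : Finset (Fin 4 → ℕ)) → ℂ) →ₗ[ℂ] (B9 → ℂ) :=
    LinearMap.funLeft ℂ ℂ fun β => ⟨β.1, (Finset.mem_filter.1 β.2).1⟩
  let L2 : ((Mon 9 : Finset (Fin 4 → ℕ)) → ℂ) →ₗ[ℂ] ((Mon 5 : Finset (Fin 4 → ℕ)) → ℂ) :=
    LinearMap.pi fun γ => ∑ α : (Mon 4 : Finset (Fin 4 → ℕ)),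
      q α.1 • LinearMap.proj (⟨α.1 + γ.1, h59 α γ⟩ : (Mon 9 : Finset (Fin 4 → ℕ)))
  have hL2 : ∀ h γ, L2 h γ = ∑ α : (Mon 4 : Finset (Fin 4 → ℕ)),
      q α.1 * h ⟨α.1 + γ.1, h59 α γ⟩ := by
    intro h γ
    simp [L2, LinearMap.sum_apply]
  have hinj : Function.Injective (L1.prod L2) := by
    rw [← LinearMap.ker_eq_bot, LinearMap.ker_eq_bot']
    intro h hh
    have h1 : L1 h = 0 := congrArg Prod.fst hh
    have h2 : L2 h = 0 := congrArg Prod.snd hh
    have key : ∀ n : ℕ, ∀ β : (Mon 9 : Finset (Fin 4 → ℕ)), β.1 0 = n → h β = 0 := by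
      intro n
      induction n using Nat.strong_induction_on with
      | _ n ih =>
        intro β hβ
        by_cases h3 : β.1 0 ≤ 3
        · have := congrFun h1 ⟨β.1, Finset.mem_filter.2 ⟨β.2, h3⟩⟩
          exact this
        · push Not at h3
          have hβ9 := mem_Mon.1 β.2
          rw [Fin.sum_univ_four] at hβ9
          let γ : Fin 4 → ℕ := ![β.1 0 - 4, β.1 1, β.1 2, β.1 3]
          have hγ : γ ∈ Mon 5 := by
            rw [mem_Mon, Fin.sum_univ_four]
            simp [γ]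
            omega
          have hsum : e4 + γ = β.1 := by
            funext i
            fin_cases i
            · simp [e4, γ]; omega
            · simp [e4, γ]
            · simp [e4, γ]
            · simp [e4, γ]
          have h4 := congrFun h2 ⟨γ, hγ⟩
          rw [hL2, Pi.zero_apply] at h4
          rw [Finset.sum_eq_single (⟨e4, e4_mem⟩ : (Mon 4 : Finset (Fin 4 → ℕ)))] at h4
          · rw [hq, one_mul] at h4
            rw [← h4]
            congr 1
            exact Subtype.ext hsum.symm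
          · intro α _ hα
            have hα4 := mem_Mon.1 α.2
            rw [Fin.sum_univ_four] at hα4
            have h5 : α.1 0 < 4 := by
              by_contra hcon
              push Not at hcon
              apply hα
              apply Subtype.ext
              funext i
              fin_cases i
              · simp [e4]; omega
              · simp [e4]; omega
              · simp [e4]; omega
              · simp [e4]; omega
            have h6 : h ⟨α.1 + γ, h59 α ⟨γ, hγ⟩⟩ = 0 := by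
              refine ih _ ?_ ⟨α.1 + γ, h59 α ⟨γ, hγ⟩⟩ rfl
              simp [γ]
              omega
            rw [h6, mul_zero]
          · intro hcon
            exact absurd (Finset.mem_univ _) hcon
    funext β
    exact key _ β rfl
  have hsurj : Function.Surjective (L1.prod L2) := by
    rw [← LinearMap.injective_iff_surjective_of_finrank_eq_finrank]
    · exact hinj
    · rw [finrank_prod, finrank_fintype_fun_eq_card, finrank_fintype_fun_eq_card,
        finrank_fintype_fun_eq_card, Fintype.card_coe, Fintype.card_coe, Fintype.card_coe, c9, f9,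
        c5]
  obtain ⟨h, hh⟩ := hsurj (g, 0)
  have h1 : L1 h = g := congrArg Prod.fst hh
  have h2 : L2 h = 0 := congrArg Prod.snd hh
  refine ⟨fun β => if hβ : β ∈ Mon 9 then h ⟨β, hβ⟩ else 0, ?_, ?_, ?_⟩
  · intro β
    have h3 : β.1 ∈ Mon 9 := (Finset.mem_filter.1 β.2).1
    simp only [dif_pos h3]
    exact congrFun h1 β
  · intro β hβ
    simp only [dif_neg hβ]
  · intro γ hγ
    have h3 := congrFun h2 ⟨γ, hγ⟩
    rw [hL2, Pi.zero_apply] at h3
    refine Eq.trans ?_ h3
    rw [← Finset.sum_coe_sort (Mon 4)]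
    refine Finset.sum_congr rfl fun α _ => ?_
    simp only [dif_pos (h59 α ⟨γ, hγ⟩)]

/-- the degree eight part -/
theorem exists8 (q : (Fin 4 → ℕ) → ℂ) (hq : q e4 = 1) (g : B8 → ℂ) :
    ∃ h : (Fin 4 → ℕ) → ℂ, (∀ β : B8, h β.1 = g β) ∧ (∀ β, β ∉ Mon 8 → h β = 0) ∧
      ∑ α ∈ Mon 4, q α * ∑ α' ∈ Mon 4, q α' * h (α + α') = 0 := by
  classical
  let u : (Fin 4 → ℕ) → ℂ := fun β => if hβ : β ∈ B8 then g ⟨β, hβ⟩ else 0
  let s : ℂ := ∑ α ∈ Mon 4, q α * ∑ α' ∈ Mon 4, q α' * u (α + α')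
  have hδ : ∑ α ∈ Mon 4, q α * ∑ α' ∈ Mon 4, q α' * (if α + α' = e8 then (1 : ℂ) else 0) = 1 := by
    have h4 : ∀ α ∈ Mon 4, ∀ α' ∈ Mon 4, α + α' = e8 → α = e4 ∧ α' = e4 := by
      intro α hα α' hα' h
      rw [mem_Mon, Fin.sum_univ_four] at hα hα'
      have h0 := congrFun h 0
      have h1 := congrFun h 1
      have h2 := congrFun h 2
      have h3 := congrFun h 3
      simp [e8] at h0 h1 h2 h3
      constructor
      · funext i
        fin_cases i
        · simp [e4]; omega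
        · simp [e4]; omega
        · simp [e4]; omega
        · simp [e4]; omega
      · funext i
        fin_cases i
        · simp [e4]; omega
        · simp [e4]; omega
        · simp [e4]; omega
        · simp [e4]; omega
    rw [Finset.sum_eq_single e4]
    · rw [Finset.sum_eq_single e4]
      · have h5 : e4 + e4 = e8 := by
          funext i
          fin_cases i <;> simp [e4, e8]
        rw [if_pos h5, hq]
        norm_num
      · intro α' hα' hne
        rw [if_neg (fun h => hne (h4 _ e4_mem _ hα' h).2), mul_zero]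
      · intro h
        exact absurd e4_mem h
    · intro α hα hne
      rw [Finset.sum_eq_zero, mul_zero]
      intro α' hα'
      rw [if_neg (fun h => hne (h4 _ hα _ hα' h).1), mul_zero]
    · intro h
      exact absurd e4_mem h
  refine ⟨fun β => u β - s * (if β = e8 then 1 else 0), ?_, ?_, ?_⟩
  · intro β
    have h1 : β.1 ≠ e8 := (Finset.mem_erase.1 β.2).1
    simp only [if_neg h1, mul_zero, sub_zero, u, dif_pos β.2]
  · intro β hβ
    have h1 : β ≠ e8 := fun h => hβ (h ▸ e8_mem)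
    have h2 : β ∉ B8 := fun h => hβ (Finset.mem_erase.1 h).2
    simp only [if_neg h1, mul_zero, sub_zero, u, dif_neg h2]
  · have h1 : ∀ α, ∑ α' ∈ Mon 4, q α' * (u (α + α') - s * (if α + α' = e8 then 1 else 0)) =
        ∑ α' ∈ Mon 4, q α' * u (α + α') -
          s * ∑ α' ∈ Mon 4, q α' * (if α + α' = e8 then (1 : ℂ) else 0) := by
      intro α
      rw [Finset.mul_sum, ← Finset.sum_sub_distrib]
      exact Finset.sum_congr rfl fun _ _ => by ring
    have h2 : ∑ α ∈ Mon 4, q α * (s * ∑ α' ∈ Mon 4, q α' * (if α + α' = e8 then (1 : ℂ) else 0)) =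
        s * ∑ α ∈ Mon 4, q α * ∑ α' ∈ Mon 4, q α' * (if α + α' = e8 then (1 : ℂ) else 0) := by
      rw [Finset.mul_sum]
      exact Finset.sum_congr rfl fun _ _ => by ring
    have h3 : ∑ α ∈ Mon 4, q α * ∑ α' ∈ Mon 4,
        q α' * (u (α + α') - s * (if α + α' = e8 then 1 else 0)) =
        ∑ α ∈ Mon 4, (q α * ∑ α' ∈ Mon 4, q α' * u (α + α') -
          q α * (s * ∑ α' ∈ Mon 4, q α' * (if α + α' = e8 then (1 : ℂ) else 0))) :=
      Finset.sum_congr rfl fun α _ => by rw [h1, mul_sub]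
    rw [h3, Finset.sum_sub_distrib, h2, hδ, mul_one]
    exact sub_self _

/-- the sequences -/
theorem exists_seq (θ : Th → ℂ) : ∃ q F : (Fin 4 → ℕ) → ℂ, Good q F ∧
    (∀ α : A4, q α.1 = θ (Sum.inl α)) ∧
    (∀ β : B9, F β.1 = θ (Sum.inr (Sum.inl β))) ∧
    (∀ β : B8, F β.1 = θ (Sum.inr (Sum.inr (Sum.inl β)))) ∧
    ∀ x : Lt 8, F x.2.1 = θ (Sum.inr (Sum.inr (Sum.inr x))) := by
  classical
  let q : (Fin 4 → ℕ) → ℂ := fun α => if h : α ∈ A4 then θ (Sum.inl ⟨α, h⟩) else 1
  have hq : q e4 = 1 := by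
    have : e4 ∉ A4 := fun h => (Finset.mem_erase.1 h).1 rfl
    simp only [q, dif_neg this]
  obtain ⟨h9, a1, a2, a3⟩ := exists9 q hq fun β => θ (Sum.inr (Sum.inl β))
  obtain ⟨h8, b1, b2, b3⟩ := exists8 q hq fun β => θ (Sum.inr (Sum.inr (Sum.inl β)))
  let h7 : (Fin 4 → ℕ) → ℂ := fun β => if h : ∑ i, β i < 8 then
    θ (Sum.inr (Sum.inr (Sum.inr ⟨⟨∑ i, β i, h⟩, ⟨β, mem_Mon.2 rfl⟩⟩))) else 0
  have c7 : ∀ β, 8 ≤ ∑ i, β i → h7 β = 0 := fun β hβ => by
    simp only [h7, dif_neg (not_lt.2 hβ)]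
  refine ⟨q, fun β => h9 β + h8 β + h7 β, ⟨hq, ?_, ?_, ?_⟩, ?_, ?_, ?_, ?_⟩
  · intro β hβ
    beta_reduce
    rw [a2 β (fun h => by rw [mem_Mon] at h; omega), b2 β (fun h => by rw [mem_Mon] at h; omega),
      c7 β (by omega)]
    norm_num
  · intro γ hγ
    rw [← a3 γ hγ]
    refine Finset.sum_congr rfl fun α hα => ?_
    have hs : ∑ i, (α + γ) i = 9 := by rw [sum_add, mem_Mon.1 hα, mem_Mon.1 hγ]
    beta_reduce
    rw [b2 _ (fun h => by rw [mem_Mon] at h; omega), c7 _ (by omega), add_zero, add_zero]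
  · rw [← b3]
    refine Finset.sum_congr rfl fun α hα => ?_
    congr 1
    refine Finset.sum_congr rfl fun α' hα' => ?_
    have hs : ∑ i, (α + α') i = 8 := by rw [sum_add, mem_Mon.1 hα, mem_Mon.1 hα']
    beta_reduce
    rw [a2 _ (fun h => by rw [mem_Mon] at h; omega), c7 _ (by omega), zero_add, add_zero]
  · intro α
    simp only [q, dif_pos α.2]
  · intro β
    have hs : ∑ i, β.1 i = 9 := mem_Mon.1 (Finset.mem_filter.1 β.2).1
    beta_reduce
    rw [a1, b2 _ (fun h => by rw [mem_Mon] at h; omega), c7 _ (by omega), add_zero, add_zero]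
  · intro β
    have hs : ∑ i, β.1 i = 8 := mem_Mon.1 (Finset.mem_erase.1 β.2).2
    beta_reduce
    rw [b1, a2 _ (fun h => by rw [mem_Mon] at h; omega), c7 _ (by omega), zero_add, add_zero]
  · rintro ⟨⟨k, hk⟩, ⟨β, hβ⟩⟩
    have hs : ∑ i, β i = k := mem_Mon.1 hβ
    subst hs
    beta_reduce
    have n9 : β ∉ Mon 9 := fun h => by
      have := mem_Mon.1 h
      omega
    have n8 : β ∉ Mon 8 := fun h => by
      have := mem_Mon.1 h
      omega
    rw [a2 β n9, b2 β n8, zero_add, zero_add]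
    simp only [h7, dif_pos hk]

end Pool.Agent.TH169.GO
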