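import Pool.Agent.TH169.GO.Point

/-!
# The framed algebra of a sequence, and the count of parameters
-/

set_option autoImplicit false

open Matrix

namespace Pool.Agent.TH169.GO

lemma isAlg_mono {Ω : Type*} [Field Ω] [CharZero Ω] {s s' : Set Ω} (h : s ⊆ s') {z : Ω}
    (hz : z ∈ Lf s) : z ∈ Lf s' := by
  have h1 : z ∈ (AlgebraicIndependent.matroid ℚ Ω).closure s := by
    rw [AlgebraicIndependent.matroid_closure_eq]; exact hz
  have h2 := (AlgebraicIndependent.matroid ℚ Ω).closure_subset_closure h h1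
  rw [AlgebraicIndependent.matroid_closure_eq] at h2
  exact h2

lemma map_mon {R R' : Type*} [CommRing R] [CommRing R'] {d : ℕ} (f : R →+* R') (p : Idx d → R)
    (β : Fin 4 → ℕ) : mon (fun j => f (p j)) β = (mon p β).map f := by
  have h : ∀ i, mat (fun j => f (p j)) i = f.mapMatrix (mat p i) := fun i => rfl
  unfold mon
  rw [h, h, h, h]
  have := (map_mul f.mapMatrix (mat p 0 ^ β 0 * mat p 1 ^ β 1 * mat p 2 ^ β 2) (mat p 3 ^ β 3))
  rw [← map_pow, ← map_pow, ← map_pow, ← map_pow, ← map_mul, ← map_mul, ← map_mul]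
  rfl

lemma mon_mem {d : ℕ} (E : Subfield ℂ) (c : Idx d → ℂ) (hc : ∀ j, c j ∈ E) (β : Fin 4 → ℕ)
    (a : Fin d) : (mon c β *ᵥ vec c) a ∈ E := by
  let cE : Idx d → E := fun j => ⟨c j, hc j⟩
  have h1 : mon c β = (mon cE β).map E.subtype := map_mon E.subtype cE β
  have h2 : (mon c β *ᵥ vec c) a = E.subtype ((mon cE β *ᵥ vec cE) a) := by
    rw [h1]
    simp only [Matrix.mulVec, dotProduct, map_sum, map_mul, Matrix.map_apply]
    rfl
  rw [h2]
  exact ((mon cE β *ᵥ vec cE) a).2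

section

variable (F : (Fin 4 → ℕ) → ℂ)

/-- shifted sequences -/
def psi (β : Fin 4 → ℕ) : (Fin 4 → ℕ) → ℂ := fun γ => F (γ + β)

/-- the space of the shifted sequences -/
def WW : Submodule ℂ ((Fin 4 → ℕ) → ℂ) := Submodule.span ℂ (Set.range (psi F))

/-- shift -/
def TL (β : Fin 4 → ℕ) : ((Fin 4 → ℕ) → ℂ) →ₗ[ℂ] ((Fin 4 → ℕ) → ℂ) :=
  LinearMap.funLeft ℂ ℂ fun γ => γ + β

lemma TL_psi (α β : Fin 4 → ℕ) : TL β (psi F α) = psi F (β + α) := by
  funext γ
  simp [TL, LinearMap.funLeft_apply, psi, add_assoc]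

lemma TL_mem (β : Fin 4 → ℕ) (w : (Fin 4 → ℕ) → ℂ) (hw : w ∈ WW F) : TL β w ∈ WW F := by
  unfold WW at hw ⊢
  induction hw using Submodule.span_induction with
  | mem x hx =>
    obtain ⟨α, rfl⟩ := hx
    rw [TL_psi]
    exact Submodule.subset_span ⟨_, rfl⟩
  | zero => rw [map_zero]; exact Submodule.zero_mem _
  | add x y _ _ hx hy => rw [map_add]; exact Submodule.add_mem _ hx hy
  | smul a x _ hx => rw [map_smul]; exact Submodule.smul_mem _ _ hx

/-- shift on `WW` -/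
def TW (β : Fin 4 → ℕ) : WW F →ₗ[ℂ] WW F := (TL β).restrict (TL_mem F β)

lemma TW_apply (β γ : Fin 4 → ℕ) (w : WW F) : (TW F β w).1 γ = w.1 (γ + β) := rfl

lemma TW_TW (α β : Fin 4 → ℕ) (w : WW F) : TW F α (TW F β w) = TW F (α + β) w := by
  apply Subtype.ext
  funext γ
  rw [TW_apply, TW_apply, TW_apply, add_assoc]

/-- `psi` as an element of `WW` -/
def pw (β : Fin 4 → ℕ) : WW F := ⟨psi F β, Submodule.subset_span ⟨β, rfl⟩⟩

lemma TW_pw (α β : Fin 4 → ℕ) : TW F α (pw F β) = pw F (α + β) :=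
  Subtype.ext (TL_psi F β α)

lemma span_pw : Submodule.span ℂ (Set.range (pw F)) = ⊤ := by
  have h := Submodule.span_span_coe_preimage (R := ℂ) (s := Set.range (psi F))
  refine Eq.trans ?_ h
  congr 1
  ext x
  constructor
  · rintro ⟨β, rfl⟩
    exact ⟨β, rfl⟩
  · rintro ⟨β, hβ⟩
    exact ⟨β, Subtype.ext hβ⟩

variable {F}

/-- the point of `GorHilb` -/
noncomputable def pt {d : ℕ} (e : WW F ≃ₗ[ℂ] (Fin d → ℂ)) : Idx d → ℂ
  | Sum.inl (i, a, b) =>
      LinearMap.toMatrix' ((e : WW F →ₗ[ℂ] _) ∘ₗ TW F (Pi.single i 1) ∘ₗ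
        (e.symm : _ →ₗ[ℂ] WW F)) a b
  | Sum.inr a => e (pw F 0) a

lemma mat_pt {d : ℕ} (e : WW F ≃ₗ[ℂ] (Fin d → ℂ)) (i : Fin 4) : mat (pt e) i =
    LinearMap.toMatrix' ((e : WW F →ₗ[ℂ] _) ∘ₗ TW F (Pi.single i 1) ∘ₗ
        (e.symm : _ →ₗ[ℂ] WW F)) := rfl

lemma mat_mulVec {d : ℕ} (e : WW F ≃ₗ[ℂ] (Fin d → ℂ)) (i : Fin 4) (w : WW F) :
    mat (pt e) i *ᵥ e w = e (TW F (Pi.single i 1) w) := by
  rw [mat_pt, ← Matrix.toLin'_apply, Matrix.toLin'_toMatrix']
  simp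

lemma pow_mulVec {d : ℕ} (e : WW F ≃ₗ[ℂ] (Fin d → ℂ)) (i : Fin 4) (n : ℕ) (w : WW F) :
    (mat (pt e) i) ^ n *ᵥ e w = e (TW F (Pi.single i n) w) := by
  induction n generalizing w with
  | zero =>
    rw [pow_zero, Matrix.one_mulVec]
    congr 1
    apply Subtype.ext
    funext γ
    rw [TW_apply]
    simp
  | succ n ih =>
    rw [pow_succ, ← Matrix.mulVec_mulVec, mat_mulVec, ih, TW_TW, ← Pi.single_add]

lemma mon_mulVec {d : ℕ} (e : WW F ≃ₗ[ℂ] (Fin d → ℂ)) (β : Fin 4 → ℕ) (w : WW F) :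
    mon (pt e) β *ᵥ e w = e (TW F β w) := by
  unfold mon
  rw [← Matrix.mulVec_mulVec, ← Matrix.mulVec_mulVec, ← Matrix.mulVec_mulVec, pow_mulVec,
    pow_mulVec, pow_mulVec, pow_mulVec, TW_TW, TW_TW, TW_TW]
  congr 3
  funext i
  fin_cases i <;> simp

/-- the covector -/
noncomputable def ph {d : ℕ} (e : WW F ≃ₗ[ℂ] (Fin d → ℂ)) : Fin d → ℂ :=
  fun j => (e.symm (Pi.single j 1)).1 0

lemma ph_dot {d : ℕ} (e : WW F ≃ₗ[ℂ] (Fin d → ℂ)) (w : WW F) : ph e ⬝ᵥ e w = w.1 0 := by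
  have h1 : w = e.symm (e w) := (e.symm_apply_apply w).symm
  have h2 : e w = ∑ j, (e w j) • (Pi.single j (1 : ℂ) : Fin d → ℂ) := by
    funext a
    simp [Finset.sum_apply, Pi.single_apply]
  conv_rhs => rw [h1, h2, map_sum]
  simp only [map_smul]
  have h3 : ∀ s : Finset (Fin d), ((∑ j ∈ s, (e w j) • e.symm (Pi.single j (1 : ℂ)) : WW F)).1 0 =
      ∑ j ∈ s, e w j * (e.symm (Pi.single j (1 : ℂ))).1 0 := by
    intro s
    induction s using Finset.induction_on with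
    | empty => rfl
    | insert a s ha ih =>
      rw [Finset.sum_insert ha, Finset.sum_insert ha, ← ih]
      rfl
  rw [h3]
  simp only [dotProduct, ph]
  exact Finset.sum_congr rfl fun j _ => mul_comm _ _

lemma pt_mem {d : ℕ} (e : WW F ≃ₗ[ℂ] (Fin d → ℂ)) : pt e ∈ GorHilb d := by
  have hv : vec (pt e) = e (pw F 0) := rfl
  refine ⟨?_, ?_, ph e, ?_⟩
  · intro i j
    rw [mat_pt, mat_pt, ← LinearMap.toMatrix'_comp, ← LinearMap.toMatrix'_comp]
    congr 1
    ext1 x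
    apply LinearMap.ext
    intro y
    simp only [LinearMap.comp_apply, LinearEquiv.coe_coe, LinearEquiv.symm_apply_apply, TW_TW,
      add_comm]
  · have h1 : (Set.range fun β : Fin 4 → ℕ => mon (pt e) β *ᵥ vec (pt e)) =
        (e : WW F →ₗ[ℂ] _) '' Set.range (pw F) := by
      rw [← Set.range_comp]
      congr 1
      funext β
      rw [hv, mon_mulVec, TW_pw, add_zero]
      rfl
    rw [h1, Submodule.span_image, span_pw, Submodule.map_top, LinearEquiv.range]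
  · by_contra hne
    obtain ⟨f, hf0, hf⟩ := Submodule.exists_le_ker_of_lt_top _ (lt_top_iff_ne_top.2 hne)
    apply hf0
    let u : Fin d → ℂ := fun j => f (Pi.single j 1)
    have hfu : ∀ x, f x = x ⬝ᵥ u := by
      intro x
      have h2 : x = ∑ j, (x j) • (Pi.single j (1 : ℂ) : Fin d → ℂ) := by
        funext a
        simp [Finset.sum_apply, Pi.single_apply]
      conv_lhs => rw [h2, map_sum]
      simp [dotProduct, u]
    have hw : e.symm u = 0 := by
      apply Subtype.ext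
      funext β
      have h3 : f (ph e ᵥ* mon (pt e) β) = 0 := by
        have := hf (Submodule.subset_span (Set.mem_range_self β))
        exact this
      rw [hfu, ← Matrix.dotProduct_mulVec] at h3
      have h4 : u = e (e.symm u) := (e.apply_symm_apply u).symm
      rw [h4, mon_mulVec, ph_dot, TW_apply, zero_add] at h3
      exact h3
    have hu : u = 0 := by
      rw [← e.apply_symm_apply u, hw, map_zero]
    apply LinearMap.ext
    intro x
    rw [hfu, hu, dotProduct_zero]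
    rfl

lemma ph_mon {d : ℕ} (e : WW F ≃ₗ[ℂ] (Fin d → ℂ)) (β : Fin 4 → ℕ) :
    ph e ⬝ᵥ (mon (pt e) β *ᵥ vec (pt e)) = F β := by
  have hv : vec (pt e) = e (pw F 0) := rfl
  rw [hv, mon_mulVec, ph_dot, TW_apply]
  simp [pw, psi]

end

end Pool.Agent.TH169.GO
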