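import Pool.Agent.TH169.GO.Exist
import Pool.Agent.TH169.GO.Count

/-!
# The Gorenstein locus of at most 138 points of affine 4-space is reducible
-/

set_option autoImplicit false

open Module

namespace Pool.Agent.TH169.GO

/-- coordinates that determine the elements of a subspace -/
theorem sel0 {ι : Type} [Fintype ι] : ∀ (n : ℕ) (K : Submodule ℂ (ι → ℂ)), finrank ℂ K = n →
    ∃ T : Finset ι, T.card ≤ n ∧ ∀ x ∈ K, (∀ t ∈ T, x t = 0) → x = 0 := by
  classical
  intro n
  induction n using Nat.strong_induction_on with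
  | _ n ih =>
    intro K hK
    by_cases h : ∀ x ∈ K, x = 0
    · exact ⟨∅, by simp, fun x hx _ => h x hx⟩
    · push Not at h
      obtain ⟨x, hx, hx0⟩ := h
      obtain ⟨i, hi⟩ := Function.ne_iff.1 hx0
      let K' : Submodule ℂ (ι → ℂ) := K ⊓ LinearMap.ker (LinearMap.proj i : (ι → ℂ) →ₗ[ℂ] ℂ)
      have hlt : K' < K := by
        refine lt_of_le_of_ne inf_le_left fun heq => hi ?_
        have : x ∈ K' := by rw [heq]; exact hx
        exact this.2
      have h1 : finrank ℂ K' < n := by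
        rw [← hK]
        exact Submodule.finrank_lt_finrank_of_lt hlt
      obtain ⟨T, hT, hT2⟩ := ih _ h1 K' rfl
      refine ⟨insert i T, (Finset.card_insert_le _ _).trans (by omega), fun y hy h2 => ?_⟩
      exact hT2 y ⟨hy, h2 i (Finset.mem_insert_self _ _)⟩
        fun t ht => h2 t (Finset.mem_insert_of_mem ht)

theorem sel1 {ι : Type} [Fintype ι] (K : Submodule ℂ (ι → ℂ)) (i : ι) (hi : ∃ x ∈ K, x i ≠ 0) :
    ∃ T : Finset ι, T.card + 1 ≤ finrank ℂ K ∧
      ∀ x ∈ K, x i = 0 → (∀ t ∈ T, x t = 0) → x = 0 := by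
  obtain ⟨x, hx, hxi⟩ := hi
  let K' : Submodule ℂ (ι → ℂ) := K ⊓ LinearMap.ker (LinearMap.proj i : (ι → ℂ) →ₗ[ℂ] ℂ)
  have hlt : K' < K := by
    refine lt_of_le_of_ne inf_le_left fun heq => hxi ?_
    have : x ∈ K' := by rw [heq]; exact hx
    exact this.2
  have h1 : finrank ℂ K' < finrank ℂ K := Submodule.finrank_lt_finrank_of_lt hlt
  obtain ⟨T, hT, hT2⟩ := sel0 _ K' rfl
  exact ⟨T, by omega, fun y hy h0 h2 => hT2 y ⟨hy, h0⟩ h2⟩

/-- a solution of a linear system that is unique has coordinates in the field of the system -/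
theorem mem_of_unique {F : (Fin 4 → ℕ) → ℂ} (E : Subfield ℂ) (hF : ∀ β, F β ∈ E)
    (T : Finset (Mon 4 : Finset (Fin 4 → ℕ)))
    (hT : ∀ x ∈ KK F, x ⟨e4, e4_mem⟩ = 0 → (∀ t ∈ T, x t = 0) → x = 0)
    (x : (Mon 4 : Finset (Fin 4 → ℕ)) → ℂ) (hx : x ∈ KK F) (hx1 : x ⟨e4, e4_mem⟩ = 1)
    (hxT : ∀ t ∈ T, x t ∈ E) (α : (Mon 4 : Finset (Fin 4 → ℕ))) : x α ∈ E := by
  let ι : E →ₗ[E] ℂ := Algebra.linearMap E ℂ
  have hι : LinearMap.ker ι = ⊥ := by
    rw [LinearMap.ker_eq_bot]
    exact (algebraMap E ℂ).injective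
  obtain ⟨π, hπ⟩ := ι.exists_leftInverse_of_injective hι
  have hπ' : ∀ a : E, π (a : ℂ) = a := fun a => LinearMap.congr_fun hπ a
  let y : (Mon 4 : Finset (Fin 4 → ℕ)) → ℂ := fun α => (π (x α) : ℂ)
  have hy : y ∈ KK F := by
    intro γ hγ
    have h1 := hx γ hγ
    have h2 : π (∑ α, x α * F (α.1 + γ)) = ∑ α, π (x α) * ⟨F (α.1 + γ), hF _⟩ := by
      rw [map_sum]
      refine Finset.sum_congr rfl fun α _ => ?_
      have h3 : x α * F (α.1 + γ) = (⟨F (α.1 + γ), hF _⟩ : E) • x α := by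
        rw [mul_comm]
        rfl
      rw [h3, map_smul, smul_eq_mul, mul_comm]
    rw [h1, map_zero] at h2
    have h4 := congrArg (fun a : E => (a : ℂ)) h2
    simp only [ZeroMemClass.coe_zero] at h4
    rw [h4]
    push_cast
    rfl
  have hd : y - x = 0 := by
    refine hT _ (Submodule.sub_mem _ hy hx) ?_ ?_
    · have h5 : π (1 : ℂ) = 1 := by
        have := hπ' 1
        simpa using this
      simp only [Pi.sub_apply, y, hx1, h5]
      simp
    · intro t ht
      have := hπ' ⟨x t, hxT t ht⟩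
      simp only [Pi.sub_apply, y]
      rw [this]
      simp
  have h6 : x α = y α := by
    have := congrFun hd α
    simp only [Pi.sub_apply, Pi.zero_apply] at this
    exact (sub_eq_zero.1 this).symm
  rw [h6]
  exact (π (x α)).2

theorem main : ∃ d : ℕ, 1 ≤ d ∧ d ≤ 138 ∧ ¬ ZariskiIrreducible (GorHilb d) := by
  classical
  obtain ⟨ξ, hξ⟩ := exists_indep (Th ⊕ (Fin 138 × Fin 138))
  obtain ⟨q, F, hG, hA, hB9, hB8, hL⟩ := exists_seq fun i => ξ (Sum.inl i)
  obtain ⟨hfin, h138⟩ := bound1 hG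
  have hb2 := bound2 hG
  -- the quartic form as an element of `KK`
  let x : (Mon 4 : Finset (Fin 4 → ℕ)) → ℂ := fun α => q α.1
  have hx : x ∈ KK F := by
    intro γ hγ
    have := hG.nine γ hγ
    rw [← Finset.sum_coe_sort (Mon 4)] at this
    exact this
  have hx1 : x ⟨e4, e4_mem⟩ = 1 := hG.one
  obtain ⟨T, hT, hT2⟩ := sel1 (KK F) ⟨e4, e4_mem⟩ ⟨x, hx, by rw [hx1]; exact one_ne_zero⟩
  set d := finrank ℂ (WW F) with hd
  have hcount : ZariskiIrreducible (GorHilb d) → Fintype.card Th ≤ 5 * d + Fintype.card T := by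
    intro hC
    refine count F hd.symm (fun i => ξ (Sum.inl i))
      (Matrix.of fun a b => ξ (Sum.inr (Fin.castLE h138 a, Fin.castLE h138 b))) ?_
      (fun t : T => x t.1) ?_ hC
    · let g : Th ⊕ (Fin d × Fin d) → Th ⊕ (Fin 138 × Fin 138) :=
        Sum.map id fun y => (Fin.castLE h138 y.1, Fin.castLE h138 y.2)
      have hg : Function.Injective g := by
        refine Function.Injective.sumMap Function.injective_id ?_
        rintro ⟨a, b⟩ ⟨a', b'⟩ h
        simp only [Prod.mk.injEq, Fin.castLE_inj] at h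
        rw [h.1, h.2]
      have := hξ.comp g hg
      convert this using 1
      funext i
      rcases i with i | ⟨a, b⟩ <;> rfl
    · intro E hF hτ i
      rcases i with α | β | β | y
      · rw [← hA α]
        exact mem_of_unique E hF T hT2 x hx hx1 (fun t ht => hτ ⟨t, ht⟩)
          ⟨α.1, (Finset.mem_erase.1 α.2).2⟩
      · rw [← hB9 β]
        exact hF _
      · rw [← hB8 β]
        exact hF _
      · rw [← hL y]
        exact hF _
  have hTc : Fintype.card T = T.card := Fintype.card_coe T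
  refine ⟨d, ?_, h138, fun hC => ?_⟩
  · by_contra h0
    have h0' : d = 0 := by omega
    have hbot : WW F = ⊥ := Submodule.finrank_eq_zero.1 (hd.symm.trans h0')
    have h1 : psi F 0 ∈ WW F := Submodule.subset_span ⟨0, rfl⟩
    rw [hbot, Submodule.mem_bot] at h1
    have h2 : F 0 = 0 := by
      have := congrFun h1 0
      simpa [psi] using this
    have h3 := hL ⟨0, ⟨0, by rw [mem_Mon]; simp⟩⟩
    have h4 : ξ (Sum.inl (Sum.inr (Sum.inr (Sum.inr ⟨0, ⟨0, by rw [mem_Mon]; simp⟩⟩)))) = 0 := by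
      rw [← h3]
      exact h2
    exact hξ.ne_zero _ h4
  · have h1 := hcount hC
    rw [card_Th, hTc] at h1
    omega

end Pool.Agent.TH169.GO
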