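import Pool.Agent.TH169.GO.Upper

/-!
# A curvilinear point
-/

set_option autoImplicit false

open Matrix

namespace Pool.Agent.TH169.GO

/-- the diagonal point -/
def c0 (d : ℕ) : Idx d → ℂ
  | Sum.inl (i, a, b) => if i = 0 ∧ a = b then ((a : ℕ) : ℂ) else 0
  | Sum.inr _ => 1

lemma mat_c0 (d : ℕ) : mat (c0 d) 0 = Matrix.diagonal fun a : Fin d => ((a : ℕ) : ℂ) := by
  ext a b
  simp only [mat, c0, Matrix.of_apply, true_and, Matrix.diagonal_apply]

lemma mat_c0' (d : ℕ) (i : Fin 4) (hi : i ≠ 0) : mat (c0 d) i = 0 := by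
  ext a b
  simp [mat, c0, hi]

lemma vec_c0 (d : ℕ) : vec (c0 d) = fun _ => 1 := rfl

lemma Kr_c0 (d : ℕ) : Kr (mat (c0 d) 0) (vec (c0 d)) =
    Matrix.vandermonde fun a : Fin d => ((a : ℕ) : ℂ) := by
  ext a b
  simp only [Kr, Matrix.of_apply, mat_c0, vec_c0, Matrix.diagonal_pow, Matrix.vandermonde_apply]
  rw [Matrix.mulVec_diagonal]
  simp

lemma Kr_det (d : ℕ) : (Kr (mat (c0 d) 0) (vec (c0 d))).det ≠ 0 := by
  rw [Kr_c0, Matrix.det_vandermonde_ne_zero_iff]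
  intro a b hab
  have hab' : ((a : ℕ) : ℂ) = ((b : ℕ) : ℂ) := hab
  have : (a : ℕ) = b := by exact_mod_cast hab'
  exact Fin.ext this

lemma span_c0 (d : ℕ) :
    Submodule.span ℂ (Set.range fun n : ℕ => ((mat (c0 d) 0) ^ n) *ᵥ vec (c0 d)) = ⊤ := by
  rw [eq_top_iff]
  rintro u -
  set K := Kr (mat (c0 d) 0) (vec (c0 d)) with hK
  have hu : u = K *ᵥ (K⁻¹ *ᵥ u) := by
    rw [Matrix.mulVec_mulVec, Matrix.mul_nonsing_inv _ (isUnit_iff_ne_zero.2 (Kr_det d)),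
      Matrix.one_mulVec]
  rw [hu, Matrix.mulVec_eq_sum]
  refine Submodule.sum_mem _ fun b _ => ?_
  have h1 : (MulOpposite.op ((K⁻¹ *ᵥ u) b) • K.transpose b) =
      ((K⁻¹ *ᵥ u) b) • (((mat (c0 d) 0) ^ (b : ℕ)) *ᵥ vec (c0 d)) := by
    funext a
    simp [hK, Kr, mul_comm]
  rw [h1]
  exact Submodule.smul_mem _ _ (Submodule.subset_span ⟨b, rfl⟩)

lemma mon_c0 (d n : ℕ) : mon (c0 d) (fun i => if i = 0 then n else 0) = (mat (c0 d) 0) ^ n := by
  simp [mon]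

theorem exists_good (d : ℕ) : ∃ c ∈ GorHilb d, Dl (zOf c) ≠ 0 := by
  refine ⟨c0 d, ⟨?_, ?_, fun _ => 1, ?_⟩, ?_⟩
  · intro i j
    by_cases hi : i = 0
    · by_cases hj : j = 0
      · rw [hi, hj]
      · rw [mat_c0' d j hj, mul_zero, zero_mul]
    · rw [mat_c0' d i hi, mul_zero, zero_mul]
  · rw [eq_top_iff, ← span_c0 d]
    refine Submodule.span_mono ?_
    rintro _ ⟨n, rfl⟩
    exact ⟨fun i => if i = 0 then n else 0, by simp only [mon_c0]⟩
  · rw [eq_top_iff, ← span_c0 d]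
    refine Submodule.span_mono ?_
    rintro _ ⟨n, rfl⟩
    refine ⟨fun i => if i = 0 then n else 0, ?_⟩
    simp only [mon_c0, mat_c0, vec_c0, Matrix.diagonal_pow]
    funext a
    rw [Matrix.vecMul_diagonal, Matrix.mulVec_diagonal, mul_comm]
  · have hu0 : uu (zOf (c0 d)) 0 = vec (c0 d) := by
      funext a
      simp [uu, zOf, vec]
    have : Dl (zOf (c0 d)) = (Kr (mat (c0 d) 0) (vec (c0 d))).det := by
      unfold Dl
      rw [hu0]
      rfl
    rw [this]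
    exact Kr_det d

end Pool.Agent.TH169.GO
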