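import Pool.Agent.TH169.GO.Defs

/-!
# The upper bound for the dimension of the closure of the curvilinear locus
-/

set_option autoImplicit false

open MvPolynomial Matrix

namespace Pool.Agent.TH169.GO

theorem card_le_of_alg {Ω : Type*} [Field Ω] [CharZero Ω] {ι κ' : Type*} [Fintype ι] [Fintype κ']
    (x : ι → Ω) (hx : AlgebraicIndependent ℚ x) (y : κ' → Ω)
    (h : ∀ i, IsAlgebraic (Algebra.adjoin ℚ (Set.range y)) (x i)) :
    Fintype.card ι ≤ Fintype.card κ' := by
  classical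
  have h1 : (AlgebraicIndependent.matroid ℚ Ω).Indep (Set.range x) := by
    rw [AlgebraicIndependent.matroid_indep_iff]
    exact hx.to_subtype_range
  have h2 : Set.range x ⊆ (AlgebraicIndependent.matroid ℚ Ω).closure (Set.range y) := by
    rw [AlgebraicIndependent.matroid_closure_eq]
    rintro _ ⟨i, rfl⟩
    exact h i
  have h3 := h1.encard_le_eRk_of_subset h2
  rw [Matroid.eRk_closure_eq] at h3
  have h4 := h3.trans ((AlgebraicIndependent.matroid ℚ Ω).eRk_le_encard (Set.range y))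
  have h5 : (Set.range x).encard = Fintype.card ι := by
    rw [← Set.image_univ, hx.injective.encard_image, Set.encard_univ, ENat.card_eq_coe_fintype_card]
  have h6 : (Set.range y).encard ≤ Fintype.card κ' := by
    rw [← Set.image_univ]
    refine (Set.encard_image_le _ _).trans ?_
    rw [Set.encard_univ, ENat.card_eq_coe_fintype_card]
  rw [h5] at h4
  exact_mod_cast h4.trans h6

/-- the subfield of elements algebraic over `ℚ(s)` -/
def Lf {Ω : Type*} [Field Ω] [CharZero Ω] (s : Set Ω) : Subfield Ω where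
  carrier := {z | IsAlgebraic (Algebra.adjoin ℚ s) z}
  mul_mem' := fun ha hb => ha.mul hb
  one_mem' := isAlgebraic_one
  add_mem' := fun ha hb => ha.add hb
  zero_mem' := isAlgebraic_zero
  neg_mem' := fun ha => ha.neg
  inv_mem' := fun _ ha => ha.inv

lemma Lf_of_mem {Ω : Type*} [Field Ω] [CharZero Ω] {s : Set Ω} {z : Ω} (h : z ∈ s) :
    z ∈ Lf s :=
  isAlgebraic_algebraMap (⟨z, Algebra.subset_adjoin h⟩ : Algebra.adjoin ℚ s)

lemma Lf_of_adjoin {Ω : Type*} [Field Ω] [CharZero Ω] {s : Set Ω} {z : Ω}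
    (h : z ∈ Algebra.adjoin ℚ s) : z ∈ Lf s :=
  isAlgebraic_algebraMap (⟨z, h⟩ : Algebra.adjoin ℚ s)

theorem exists_indep (ι' : Type) [Finite ι'] : ∃ f : ι' → ℂ, AlgebraicIndependent ℚ f := by
  obtain ⟨s, hs⟩ := exists_isTranscendenceBasis ℚ ℂ
  have h1 := IsAlgClosed.cardinal_eq_cardinal_transcendence_basis_of_aleph0_lt
    (R := ℚ) (K := ℂ) (fun x : s => (x : ℂ)) hs
    (by simp) (by rw [Cardinal.mk_complex]; exact Cardinal.aleph0_lt_continuum)
  have h2 : Infinite s := by
    rw [Cardinal.infinite_iff]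
    have : Cardinal.mk s = Cardinal.mk ℂ := by simpa using h1.symm
    rw [this, Cardinal.mk_complex]; exact Cardinal.aleph0_le_continuum
  obtain ⟨n, ⟨e⟩⟩ := Finite.exists_equiv_fin ι'
  have e2 : Fin n ↪ s := (Fin.valEmbedding.trans (Infinite.natEmbedding s))
  exact ⟨fun i => (e2 (e i) : ℂ), hs.1.comp (fun i => e2 (e i)) (e2.injective.comp e.injective)⟩

/-- the coordinates of one matrix and four vectors -/
abbrev Sg (d : ℕ) : Type := (Fin d × Fin d) ⊕ (Fin 4 × Fin d)

section

variable {R R' : Type*} [CommRing R] [CommRing R'] {d : ℕ}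

/-- the matrix of a point of the parameter space -/
def X0 (z : Sg d → R) : Matrix (Fin d) (Fin d) R := Matrix.of fun a b => z (Sum.inl (a, b))

/-- the vectors of a point of the parameter space -/
def uu (z : Sg d → R) (i : Fin 4) : Fin d → R := fun a => z (Sum.inr (i, a))

/-- Krylov matrix -/
def Kr (X : Matrix (Fin d) (Fin d) R) (u : Fin d → R) : Matrix (Fin d) (Fin d) R :=
  Matrix.of fun a b => ((X ^ (b : ℕ)) *ᵥ u) a

/-- the common denominator -/
def Dl (z : Sg d → R) : R := (Kr (X0 z) (uu z 0)).det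

/-- the numerators -/
def Nm (z : Sg d → R) : Idx d → R
  | Sum.inl (i, a, b) => if i = 0 then Dl z * z (Sum.inl (a, b)) else
      (Kr (X0 z) (uu z i) * (Kr (X0 z) (uu z 0)).adjugate) a b
  | Sum.inr a => Dl z * z (Sum.inr (0, a))

/-- the parameters of a point -/
def zOf (p : Idx d → R) : Sg d → R
  | Sum.inl (a, b) => p (Sum.inl (0, a, b))
  | Sum.inr (i, a) => if i = 0 then p (Sum.inr a) else (mat p i *ᵥ vec p) a

lemma map_X0 (f : R →+* R') (z : Sg d → R) : X0 (fun i => f (z i)) = (X0 z).map f := rfl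

lemma map_Kr (f : R →+* R') (X : Matrix (Fin d) (Fin d) R) (u : Fin d → R) :
    Kr (X.map f) (fun a => f (u a)) = (Kr X u).map f := by
  ext a b
  simp only [Kr, Matrix.of_apply, Matrix.map_apply]
  have h : (X.map f) ^ (b : ℕ) = (X ^ (b : ℕ)).map f := by
    have := (map_pow f.mapMatrix X (b : ℕ)).symm
    simpa [RingHom.mapMatrix_apply] using this
  rw [h]
  simp [Matrix.mulVec, dotProduct, map_sum, map_mul]

lemma map_Dl (f : R →+* R') (z : Sg d → R) : Dl (fun i => f (z i)) = f (Dl z) := by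
  unfold Dl
  have h : Kr (X0 fun i => f (z i)) (uu (fun i => f (z i)) 0) = (Kr (X0 z) (uu z 0)).map f :=
    map_Kr f (X0 z) (uu z 0)
  rw [h, f.map_det]
  rfl

lemma map_Nm (f : R →+* R') (z : Sg d → R) (j : Idx d) : Nm (fun i => f (z i)) j = f (Nm z j) := by
  rcases j with ⟨i, a, b⟩ | a
  · simp only [Nm]
    split_ifs with h
    · rw [map_Dl, map_mul]
    · have h1 : Kr (X0 fun i => f (z i)) (uu (fun i => f (z i)) i) = (Kr (X0 z) (uu z i)).map f :=
        map_Kr f (X0 z) (uu z i)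
      have h2 : Kr (X0 fun i => f (z i)) (uu (fun i => f (z i)) 0) = (Kr (X0 z) (uu z 0)).map f :=
        map_Kr f (X0 z) (uu z 0)
      rw [h1, h2]
      have h3 := f.map_adjugate (Kr (X0 z) (uu z 0))
      simp only [RingHom.mapMatrix_apply] at h3
      rw [← h3, ← Matrix.map_mul]
      rfl
  · simp only [Nm]
    rw [map_Dl, map_mul]

lemma map_zOf (f : R →+* R') (p : Idx d → R) (i : Sg d) : zOf (fun j => f (p j)) i = f (zOf p i) := by
  rcases i with ⟨a, b⟩ | ⟨i, a⟩
  · rfl
  · simp only [zOf]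
    split_ifs
    · rfl
    · simp [Matrix.mulVec, dotProduct, map_sum, map_mul, mat, vec]

lemma Kr_mul (X Y : Matrix (Fin d) (Fin d) R) (v : Fin d → R) (h : Y * X = X * Y) :
    Y * Kr X v = Kr X (Y *ᵥ v) := by
  ext a b
  simp only [Kr, Matrix.of_apply]
  have h1 : Y * X ^ (b : ℕ) = X ^ (b : ℕ) * Y := (Commute.pow_right (show Commute Y X from h) _)
  have h2 : (X ^ (b : ℕ)) *ᵥ (Y *ᵥ v) = Y *ᵥ ((X ^ (b : ℕ)) *ᵥ v) := by
    rw [Matrix.mulVec_mulVec, Matrix.mulVec_mulVec, h1]
  rw [h2]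
  rfl

/-- Cramer's rule -/
lemma Dl_mul (p : Idx d → R) (h : ∀ i j : Fin 4, mat p i * mat p j = mat p j * mat p i)
    (j : Idx d) : Dl (zOf p) * p j = Nm (zOf p) j := by
  have hX : X0 (zOf p) = mat p 0 := rfl
  have hu0 : uu (zOf p) 0 = vec p := by
    funext a
    simp [uu, zOf, vec]
  rcases j with ⟨i, a, b⟩ | a
  · simp only [Nm]
    split_ifs with hi
    · subst hi
      rfl
    · have hu : uu (zOf p) i = mat p i *ᵥ vec p := by
        funext a
        simp [uu, zOf, hi]
      rw [hu, hX, hu0, ← Kr_mul _ _ _ (h i 0), Matrix.mul_assoc, Matrix.mul_adjugate]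
      have h1 : mat p i * (Kr (mat p 0) (vec p)).det • (1 : Matrix (Fin d) (Fin d) R) =
          (Kr (mat p 0) (vec p)).det • mat p i := by
        rw [Matrix.mul_smul, Matrix.mul_one]
      rw [h1, Matrix.smul_apply, smul_eq_mul, Dl, hX, hu0]
      rfl
  · simp only [Nm]
    congr 1

end

lemma clear {σ : Type*} {ι : Type*} (D : MvPolynomial σ ℚ) (N : ι → MvPolynomial σ ℚ)
    (G : MvPolynomial ι ℚ) : ∃ (k : ℕ) (H : MvPolynomial σ ℚ), ∀ (z : σ → ℂ) (w : ι → ℂ),
      (∀ j, aeval z D * w j = aeval z (N j)) → (aeval z D) ^ k * aeval w G = aeval z H := by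
  induction G using MvPolynomial.induction_on with
  | C a =>
    exact ⟨0, C a, fun z w _ => by simp⟩
  | add p q hp hq =>
    obtain ⟨k1, H1, h1⟩ := hp
    obtain ⟨k2, H2, h2⟩ := hq
    refine ⟨k1 + k2, D ^ k2 * H1 + D ^ k1 * H2, fun z w hw => ?_⟩
    rw [map_add, map_add, map_mul, map_mul, map_pow, map_pow, ← h1 z w hw, ← h2 z w hw]
    ring
  | mul_X p j hp =>
    obtain ⟨k, H, h⟩ := hp
    refine ⟨k + 1, H * N j, fun z w hw => ?_⟩
    rw [map_mul, map_mul, aeval_X, ← h z w hw, ← hw j]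
    ring

/-- the upper bound -/
theorem upper {d : ℕ} (hC : ZariskiIrreducible (GorHilb d))
    (hc : ∃ c ∈ GorHilb d, Dl (zOf c) ≠ 0) {ι : Type} [Fintype ι] (e : ι → Idx d)
    (hm : d * d + 4 * d < Fintype.card ι) {c : Idx d → ℂ} (hcC : c ∈ GorHilb d) :
    ¬ AlgebraicIndependent ℚ (fun j => c (e j)) := by
  classical
  obtain ⟨ζ, hζ⟩ := exists_indep (Sg d)
  -- the generic polynomials
  let DD : MvPolynomial (Sg d) ℚ := Dl (fun i => X i)
  let NN : ι → MvPolynomial (Sg d) ℚ := fun j => Nm (fun i => X i) (e j)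
  have hD : ∀ z : Sg d → ℂ, aeval z DD = Dl z := by
    intro z
    have := (map_Dl ((aeval z : MvPolynomial (Sg d) ℚ →ₐ[ℚ] ℂ) : MvPolynomial (Sg d) ℚ →+* ℂ)
      (fun i => X i)).symm
    simpa [DD] using this
  have hN : ∀ (z : Sg d → ℂ) (j : ι), aeval z (NN j) = Nm z (e j) := by
    intro z j
    have := (map_Nm ((aeval z : MvPolynomial (Sg d) ℚ →ₐ[ℚ] ℂ) : MvPolynomial (Sg d) ℚ →+* ℂ)
      (fun i => X i) (e j)).symm
    simpa [NN] using this
  have hDD : DD ≠ 0 := by
    obtain ⟨c0, _, h0⟩ := hc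
    intro h
    apply h0
    rw [← hD, h, map_zero]
  have hζD : aeval ζ DD ≠ 0 := by
    intro h
    exact hDD ((injective_iff_map_eq_zero _).1 hζ DD h)
  let w : ι → ℂ := fun j => aeval ζ (NN j) / aeval ζ DD
  have hw : ∀ j, aeval ζ DD * w j = aeval ζ (NN j) := fun j => mul_div_cancel₀ _ hζD
  have hdep : ¬ AlgebraicIndependent ℚ w := by
    intro hw'
    have hle := card_le_of_alg w hw' ζ (by
      intro j
      have h1 : ∀ Q : MvPolynomial (Sg d) ℚ, aeval ζ Q ∈ Lf (Set.range ζ) := fun Q =>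
        Lf_of_adjoin (by
          rw [Algebra.adjoin_range_eq_range_aeval]
          exact ⟨Q, rfl⟩)
      exact (Lf (Set.range ζ)).div_mem (h1 _) (h1 _))
    simp only [Fintype.card_sum, Fintype.card_prod, Fintype.card_fin] at hle
    omega
  obtain ⟨G, hG0, hG⟩ : ∃ G : MvPolynomial ι ℚ, aeval w G = 0 ∧ G ≠ 0 := by
    by_contra hcon
    push Not at hcon
    exact hdep ((injective_iff_map_eq_zero _).2 fun G hG => hcon G hG)
  obtain ⟨k, H, hH⟩ := clear DD NN G
  have hH0 : H = 0 := by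
    apply (injective_iff_map_eq_zero _).1 hζ H
    have := hH ζ w hw
    rw [hG0, mul_zero] at this
    exact this.symm
  have hall : ∀ p ∈ GorHilb d, Dl (zOf p) ≠ 0 → aeval (fun j => p (e j)) G = 0 := by
    intro p hp hpD
    have h1 := hH (zOf p) (fun j => p (e j)) (by
      intro j
      rw [hD, hN]
      exact Dl_mul p hp.1 (e j))
    rw [hH0, map_zero, hD] at h1
    rcases mul_eq_zero.1 h1 with h | h
    · exact absurd h (pow_ne_zero k hpD)
    · exact h
  let FF : MvPolynomial (Idx d) ℂ := rename e (map (algebraMap ℚ ℂ) G)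
  let DC : MvPolynomial (Idx d) ℂ := Dl (zOf (fun i => X i))
  have hFF : ∀ p : Idx d → ℂ, eval p FF = aeval (fun j => p (e j)) G := by
    intro p
    simp only [FF, eval_rename, eval_map, aeval_def]
    rfl
  have hDC : ∀ p : Idx d → ℂ, eval p DC = Dl (zOf p) := by
    intro p
    have h1 := map_Dl (eval p) (zOf (fun i => (X i : MvPolynomial (Idx d) ℂ)))
    rw [← h1]
    congr 1
    funext i
    rw [← map_zOf]
    simp
  rcases hC.2 FF DC (by
    intro p hp
    by_cases hpD : Dl (zOf p) = 0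
    · rw [hDC, hpD, mul_zero]
    · rw [hFF, hall p hp hpD, zero_mul]) with h | h
  · intro hind
    apply hG
    apply (injective_iff_map_eq_zero _).1 hind G
    rw [← hFF]
    exact h c hcC
  · obtain ⟨c0, hc0, h0⟩ := hc
    exact absurd (by rw [← hDC]; exact h c0 hc0) h0

end Pool.Agent.TH169.GO
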